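import Mathlib

namespace Pool.Agent.Results.MP_21cc58_al.Order546

/-- Adjacency of `p` and `q` in the prime graph of `G`. -/
def GKAdj (G : Type) [Group G] (p q : ℕ) : Prop := p ≠ q ∧ ∃ g : G, orderOf g = p * q

open Classical in
/-- The degree of the vertex `p` in the prime graph of `G`. -/
noncomputable def GKdeg (G : Type) [Group G] (p : ℕ) : ℕ :=
  ((Nat.card G).primeFactors.filter fun q => GKAdj G p q).card

@[ext] structure SD (u : ZMod 91) where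
  a : ZMod 91
  i : ZMod 6
deriving DecidableEq

variable {u : ZMod 91}

instance : Mul (SD u) := ⟨fun x y => ⟨x.a + u ^ x.i.val * y.a, x.i + y.i⟩⟩
instance : One (SD u) := ⟨⟨0, 0⟩⟩
instance : Inv (SD u) := ⟨fun x => ⟨-(u ^ (-x.i).val * x.a), -x.i⟩⟩
@[simp] lemma mul_a (x y : SD u) : (x * y).a = x.a + u ^ x.i.val * y.a := rfl
@[simp] lemma mul_i (x y : SD u) : (x * y).i = x.i + y.i := rfl
@[simp] lemma one_a : (1 : SD u).a = 0 := rfl
@[simp] lemma one_i : (1 : SD u).i = 0 := rfl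
@[simp] lemma inv_a (x : SD u) : x⁻¹.a = -(u ^ (-x.i).val * x.a) := rfl
@[simp] lemma inv_i (x : SD u) : x⁻¹.i = -x.i := rfl

instance [h : Fact (∀ i j : ZMod 6, u ^ (i + j).val = u ^ i.val * u ^ j.val)] : Group (SD u) :=
  Group.ofLeftAxioms (fun x y z => by ext <;> simp [add_assoc, h.out]; ring)
    (fun x => by ext <;> simp) (fun x => by ext <;> simp)

instance f55 : Fact (∀ i j : ZMod 6, (55 : ZMod 91) ^ (i + j).val = 55 ^ i.val * 55 ^ j.val) :=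
  ⟨by decide +kernel⟩
instance f51 : Fact (∀ i j : ZMod 6, (51 : ZMod 91) ^ (i + j).val = 51 ^ i.val * 51 ^ j.val) :=
  ⟨by decide +kernel⟩

def eqv : SD u ≃ ZMod 91 × ZMod 6 := ⟨fun x => (x.a, x.i), fun y => ⟨y.1, y.2⟩, fun _ => rfl,
  fun _ => rfl⟩

instance : Finite (SD u) := Finite.of_equiv _ eqv.symm

lemma card_sd : Nat.card (SD u) = 546 := by
  rw [Nat.card_congr eqv, Nat.card_prod, Nat.card_zmod, Nat.card_zmod]

lemma ord_iff {G : Type} [Group G] (g : G) {p q : ℕ} (hp : p.Prime) (hq : q.Prime) :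
    orderOf g = p * q ↔ g ^ (p * q) = 1 ∧ g ^ p ≠ 1 ∧ g ^ q ≠ 1 := by
  have := hp.two_le
  have := hq.two_le
  constructor
  · intro h
    refine ⟨h ▸ pow_orderOf_eq_one g, pow_ne_one_of_lt_orderOf (by omega) (by nlinarith),
      pow_ne_one_of_lt_orderOf (by omega) (by nlinarith)⟩
  · rintro ⟨h, h1, h2⟩
    refine orderOf_eq_of_pow_and_pow_div_prime (by positivity) h fun r hr hd => ?_
    rcases (Nat.Prime.dvd_mul hr).1 hd with h3 | h3
    · rw [(Nat.prime_dvd_prime_iff_eq hr hp).1 h3, Nat.mul_div_cancel_left _ hp.pos]; exact h2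
    · rw [(Nat.prime_dvd_prime_iff_eq hr hq).1 h3, Nat.mul_div_cancel _ hq.pos]; exact h1

lemma adj_iff [Fact (∀ i j : ZMod 6, u ^ (i + j).val = u ^ i.val * u ^ j.val)] {p q : ℕ}
    (hp : p.Prime) (hq : q.Prime) : GKAdj (SD u) p q ↔ p ≠ q ∧ ∃ (a : ZMod 91) (i : ZMod 6),
      (⟨a, i⟩ : SD u) ^ (p * q) = 1 ∧ (⟨a, i⟩ : SD u) ^ p ≠ 1 ∧ (⟨a, i⟩ : SD u) ^ q ≠ 1 := by
  simp only [GKAdj, ord_iff _ hp hq]
  exact and_congr_right fun _ => ⟨fun ⟨g, h⟩ => ⟨g.a, g.i, h⟩, fun ⟨_, _, h⟩ => ⟨_, h⟩⟩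

lemma pf : (546 : ℕ).primeFactors = {2, 3, 7, 13} := by
  rw [show 546 = 2 * 3 * 7 * 13 by norm_num, Nat.primeFactors_mul, Nat.primeFactors_mul,
    Nat.primeFactors_mul, Nat.Prime.primeFactors, Nat.Prime.primeFactors, Nat.Prime.primeFactors,
    Nat.Prime.primeFactors] <;> first | decide | norm_num

lemma t55 : ∀ p ∈ ({2, 3, 7, 13} : Finset ℕ), ∀ q ∈ ({2, 3, 7, 13} : Finset ℕ),
    (p ≠ q ∧ ∃ (a : ZMod 91) (i : ZMod 6), (⟨a, i⟩ : SD 55) ^ (p * q) = 1 ∧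
      (⟨a, i⟩ : SD 55) ^ p ≠ 1 ∧ (⟨a, i⟩ : SD 55) ^ q ≠ 1) ↔
      p ≠ q ∧ p * q ≠ 14 ∧ p * q ≠ 39 := by decide +kernel

lemma t51 : ∀ p ∈ ({2, 3, 7, 13} : Finset ℕ), ∀ q ∈ ({2, 3, 7, 13} : Finset ℕ),
    (p ≠ q ∧ ∃ (a : ZMod 91) (i : ZMod 6), (⟨a, i⟩ : SD 51) ^ (p * q) = 1 ∧
      (⟨a, i⟩ : SD 51) ^ p ≠ 1 ∧ (⟨a, i⟩ : SD 51) ^ q ≠ 1) ↔
      p ≠ q ∧ p * q ≠ 26 ∧ p * q ≠ 21 := by decide +kernel

lemma pr {p : ℕ} (h : p ∈ ({2, 3, 7, 13} : Finset ℕ)) : p.Prime := by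
  rw [← pf] at h; exact Nat.prime_of_mem_primeFactors h

theorem result : ∃ (G M : Type) (_ : Group G) (_ : Group M), Finite G ∧ Finite M ∧
    Nat.card G = Nat.card M ∧ (∀ p ∈ (Nat.card G).primeFactors, GKdeg G p = GKdeg M p) ∧
    ∃ p ∈ (Nat.card G).primeFactors, ∃ q ∈ (Nat.card G).primeFactors,
      ¬ GKAdj G p q ∧ GKAdj M p q := by
  classical
  refine ⟨SD 55, SD 51, inferInstance, inferInstance, inferInstance, inferInstance,
    by rw [card_sd, card_sd], ?_, ?_⟩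
  · rw [card_sd, pf]
    intro p hp
    unfold GKdeg
    rw [card_sd, card_sd, pf,
      Finset.filter_congr fun q hq => (adj_iff (pr hp) (pr hq)).trans (t55 p hp q hq),
      Finset.filter_congr fun q hq => (adj_iff (pr hp) (pr hq)).trans (t51 p hp q hq)]
    revert p
    decide +kernel
  · rw [card_sd, pf]
    refine ⟨2, by simp, 7, by simp, ?_, ?_⟩
    · rw [adj_iff (by norm_num) (by norm_num), t55 2 (by simp) 7 (by simp)]; norm_num
    · rw [adj_iff (by norm_num) (by norm_num), t51 2 (by simp) 7 (by simp)]; norm_num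

end Pool.Agent.Results.MP_21cc58_al.Order546
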